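import Pool.Agent.H938R3.HT.Stmts

set_option autoImplicit false

/-! Task TRACE of project H938-HT. -/

namespace Pool.Agent.H224R3.HT

open Pool.Agent.H938R3.HT

lemma blk_mem {x : ℕ → ℕ} (hx : StrictMono x) (n : ℕ) : n ≤ x (blk x n) :=
  Nat.sInf_mem (s := {i | n ≤ x i}) ⟨n, hx.le_apply⟩

lemma blk_lt {x : ℕ → ℕ} (n m : ℕ) (h : m < blk x n) : x m < n := by
  have := Nat.notMem_of_lt_sInf h
  exact not_le.1 this

lemma blk_eq {x : ℕ → ℕ} (hx : StrictMono x) (n p : ℕ) (h1 : x p < n) (h2 : n ≤ x (p + 1)) :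
    blk x n = p + 1 := by
  apply le_antisymm
  · exact Nat.sInf_le h2
  · by_contra hlt
    have h3 : blk x n ≤ p := by omega
    have h4 := blk_mem hx n
    have h5 := hx.monotone h3
    omega

theorem trace : TaskTRACE := by
  classical
  intro hGS V hV X hD x hx hxX hT
  have hsub : ∀ A : Set ℕ, x '' A ⊆ X := by
    rintro A _ ⟨a, _, rfl⟩
    exact hxX a
  have hinf : ∀ A : Set ℕ, A.Infinite → (x '' A).Infinite := fun A hA =>
    hA.image hx.injective.injOn
  constructor
  · intro e q m he hq A A' hA hA' hAA hex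
    obtain ⟨h, hh⟩ := hex
    obtain ⟨h', hh', _⟩ := hD (x m) (hxX m) (x '' A) (x '' A') (hsub A) (hsub A') (hinf A hA)
      (hinf A' hA') (by
        intro i hi
        constructor
        · rintro ⟨a, ha, rfl⟩
          exact ⟨a, (hAA a (hx.le_iff_le.1 hi)).1 ha, rfl⟩
        · rintro ⟨a, ha, rfl⟩
          exact ⟨a, (hAA a (hx.le_iff_le.1 hi)).2 ha, rfl⟩) e (he.trans hx.le_apply) (x q)
      (hx.monotone hq) h hh
    exact ⟨h', hh'⟩
  · intro e q A h hA hh i hi
    by_contra hcon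
    push Not at hcon
    obtain ⟨hi1, hiA, hiA'⟩ := hcon
    obtain ⟨p, rfl⟩ : ∃ p, i = p + 2 := ⟨i - 2, by omega⟩
    have hqp : q ≤ p := by
      have := le_max_left q e
      omega
    have hep : e ≤ p := by
      have := le_max_right q e
      omega
    have hA1 : p + 1 ∉ A := fun h1 => hiA' (p + 1) h1 rfl
    set s : Finset ℕ := ((Finset.range (p + 1)).filter (· ∈ A)).image x with hs
    have hsp : ∀ j ∈ s, j ≤ x p := by
      intro j hj
      obtain ⟨a, ha, rfl⟩ := Finset.mem_image.1 hj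
      have := Finset.mem_range.1 (Finset.mem_filter.1 ha).1
      exact hx.monotone (by omega)
    have hpp : x p ≤ x (p + 2) := hx.monotone (by omega)
    have hYs : ∀ j ≤ x (p + 2), (j ∈ x '' A ↔ j ∈ s) := by
      intro j hj
      constructor
      · rintro ⟨a, ha, rfl⟩
        have h1 : a ≤ p + 2 := hx.le_iff_le.1 hj
        have h2 : a ≠ p + 2 := fun h3 => hiA (h3 ▸ ha)
        have h3 : a ≠ p + 1 := fun h4 => hA1 (h4 ▸ ha)
        exact Finset.mem_image.2 ⟨a, Finset.mem_filter.2 ⟨Finset.mem_range.2 (by omega), ha⟩, rfl⟩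
      · intro hj
        obtain ⟨a, ha, rfl⟩ := Finset.mem_image.1 hj
        exact ⟨a, (Finset.mem_filter.1 ha).2, rfl⟩
    have hG := hGS V hV X hD (x (p + 2)) (hxX _) (x '' A) (hsub A) (hinf A hA) s
      (fun j hj => (hsp j hj).trans hpp) hYs e ((hep.trans hx.le_apply).trans hpp) (x q)
      ((hx.monotone hqp).trans hpp) h hh
    have hTp := hT p e (x q) (hep.trans hx.le_apply) (hx.monotone hqp) s hsp
    have hi2 := Finset.mem_filter.1 hi
    by_cases hfin : (gs V X e (x q) s).Finite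
    · obtain ⟨n, hn, hnb⟩ := Finset.mem_image.1 hi2.1
      have h1 : n ≤ x (p + 2) := hnb ▸ blk_mem hx n
      have h2 : x (p + 1) < n := blk_lt n (p + 1) (by omega)
      have h3 := hTp.2 hfin n ((hG n h1).1 hn)
      omega
    · obtain ⟨n, hn, hn1, hn2⟩ := hTp.1 hfin
      have h1 : x (p + 1) ≤ x (p + 2) := hx.monotone (by omega)
      have h2 : n ∈ h := (hG n (hn2.trans h1)).2 hn
      exact hi2.2 (p + 1) (Finset.mem_image.2 ⟨n, h2, blk_eq hx n p hn1 hn2⟩) rfl

end Pool.Agent.H224R3.HT
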